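import Pool.Agent.H7.NDS.Final

/-!
# MP_b72257_nt: the image of the newform Dedekind sums for a quadratic character field

For every admissible pair of characters whose values generate a quadratic field, the lattice `L`
is exactly `2 O`.
-/

namespace Pool.Agent.Results.MP_b72257_nt.QuadraticImage

/-- Q1 holds: if `χ₁ mod q₁`, `χ₂ mod q₂` are primitive and nontrivial, `χ₁(-1) χ₂(-1) = 1` and
`F = ℚ(χ₁, χ₂)` is quadratic, then `L = 2 O`. -/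
theorem result (q₁ q₂ : ℕ) [NeZero q₁] [NeZero q₂] (χ₁ : DirichletCharacter ℂ q₁)
    (χ₂ : DirichletCharacter ℂ q₂) (h₁ : χ₁.IsPrimitive) (h₂ : χ₂.IsPrimitive)
    (n₁ : χ₁ ≠ 1) (n₂ : χ₂ ≠ 1) (par : χ₁ (-1) * χ₂ (-1) = 1)
    (hF : Module.finrank ℚ (NDS.F χ₁ χ₂) = 2) :
    (NDS.L χ₁ χ₂ : Set ℂ) = {s : ℂ | ∃ x ∈ NDS.O χ₁ χ₂, s = 2 * x} :=
  NDS.main χ₁ χ₂ h₁ h₂ n₁ n₂ par hF

end Pool.Agent.Results.MP_b72257_nt.QuadraticImage
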